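import Pool.Agent.Results.MP_4b35b9_lc.NoSelfModulus
import Pool.Agent.Y584.NS.Delta

set_option autoImplicit false

/-! Problem MP_4b35b9_lc, question Q1, answered in the negative in a stronger form: there is a
noncomputable `Δ⁰₃` real `X` such that every real computable from `X` is NCR, and `X` computes no
modulus of any noncomputable real. So no noncomputable real computable from `X` has a self-modulus:
every nonzero Turing degree below the degree of `X` consists of NCR reals and has no self-modulus.

The real `X` is a noncomputable member of a countable effectively closed class such that every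
function computable from `X` is bounded by a computable function. -/

namespace Pool.Agent.Results.MP_4b35b9_lc.DeltaThreeCone

open Pool.Agent.TH738.NR
open Pool.Agent.Helper743 (TR TR_iff)
open Pool.Agent.Results.MP_4b35b9_lc.NoSelfModulus (Below Computes IsModulus NCR HasSelfModulus
  Hyperarithmetic)

/-- `Σ⁰₃` sets of natural numbers: `S n` holds iff there is `a` such that for all `b` there is `c`
with `M (n, (a, (b, c)))`, where `M` is a computable predicate. -/
def Sigma03 (S : ℕ → Prop) : Prop :=
  ∃ M : ℕ × (ℕ × (ℕ × ℕ)) → Prop, ComputablePred M ∧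
    ∀ n, S n ↔ ∃ a, ∀ b, ∃ c, M (n, (a, (b, c)))

/-- `Δ⁰₃` reals. -/
def Delta03 (X : ℕ → Bool) : Prop :=
  Sigma03 (fun n => X n = true) ∧ Sigma03 (fun n => ¬ X n = true)

lemma delta03 {X : ℕ → Bool} (h : Good X) : Delta03 X := by
  refine ⟨⟨Pool.Agent.Y584.NS.Mat true, ?_, fun n => Pool.Agent.Y584.NS.delta h true n⟩,
    ⟨Pool.Agent.Y584.NS.Mat false, ?_, fun n => ?_⟩⟩
  · obtain ⟨i, hi⟩ := Pool.Agent.Y584.NS.Mat_p true
    exact ⟨i, hi.to_comp⟩
  · obtain ⟨i, hi⟩ := Pool.Agent.Y584.NS.Mat_p false
    exact ⟨i, hi.to_comp⟩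
  · have h1 : (¬ X n = true) ↔ X n = false := by rw [Bool.not_eq_true]
    exact h1.trans (Pool.Agent.Y584.NS.delta h false n)

/-- every function computable from `X` is bounded by a computable function -/
lemma bounded {X : ℕ → Bool} (h : Good X) {f : ℕ → ℕ} (hf : Computes X f) :
    ∃ g : ℕ → ℕ, Computable g ∧ ∀ n, f n ≤ g n :=
  h.bounded (NoSelfModulus.computes_iff.1 hf)

/-- `X` computes no modulus of any noncomputable real -/
lemma no_modulus {X : ℕ → Bool} (h : Good X) {f : ℕ → ℕ} (hf : Computes X f) {Z : ℕ → Bool}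
    (hZ : IsModulus f Z) : Computable Z := by
  obtain ⟨g, h5, h6⟩ := bounded h hf
  have h7 : TR (orc Z) g := NoSelfModulus.computedBy_iff.1 (hZ g h6)
  exact computable_of_orc (Pool.Agent.Helper743.TR_const h5 h7)

lemma no_self_modulus {X : ℕ → Bool} (h : Good X) {Y : ℕ → Bool} (h1 : Below Y X)
    (hY : ¬ Computable Y) : ¬ HasSelfModulus Y := by
  rintro ⟨f, h3, h4⟩
  exact hY (no_modulus h (NoSelfModulus.computes_iff.2 ((NoSelfModulus.computes_iff.1 h3).trans
    (NoSelfModulus.below_iff.1 h1))) h4)

/-- Every real that computes `X` is noncomputable. -/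
lemma not_computable_of_above {X : ℕ → Bool} (h : Good X) {Y : ℕ → Bool} (h2 : Below X Y) :
    ¬ Computable Y := by
  intro hY
  have h3 : Computable (orc Y) := by
    have e : orc Y = fun n => (Y n).toNat := rfl
    rw [e]
    exact (Primrec.dom_finite Bool.toNat).to_comp.comp hY
  exact h.not_computable (computable_of_orc
    (Pool.Agent.Helper743.TR_const h3 (NoSelfModulus.below_iff.1 h2)))

/-- Question Q1 has a negative answer, in this form: there is a noncomputable `Δ⁰₃` real `X`
(which is also shown to be hyperarithmetic) such that every real computable from `X` is NCR, every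
function computable from `X` is bounded by a computable function, `X` computes no modulus of any
noncomputable real, and no noncomputable real computable from `X` has a self-modulus; in particular
the Turing degree of `X` consists of NCR reals without self-modulus. -/
theorem result : ∃ X : ℕ → Bool, Delta03 X ∧ Hyperarithmetic X ∧ ¬ Computable X ∧
    (∀ f : ℕ → ℕ, Computes X f → ∃ g : ℕ → ℕ, Computable g ∧ ∀ n, f n ≤ g n) ∧
    (∀ f : ℕ → ℕ, Computes X f → ∀ Z : ℕ → Bool, ¬ Computable Z → ¬ IsModulus f Z) ∧
    (∀ Y : ℕ → Bool, Below Y X → NCR Y ∧ (¬ Computable Y → ¬ HasSelfModulus Y)) ∧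
    ∀ Y : ℕ → Bool, Below Y X → Below X Y → NCR Y ∧ ¬ HasSelfModulus Y := by
  obtain ⟨X, h⟩ := exists_good
  exact ⟨X, delta03 h, NoSelfModulus.hyp h, h.not_computable, fun f hf => bounded h hf,
    fun f hf Z hZ hm => hZ (no_modulus h hf hm),
    fun Y h1 => ⟨NoSelfModulus.ncr h h1, no_self_modulus h h1⟩,
    fun Y h1 h2 => ⟨NoSelfModulus.ncr h h1,
      no_self_modulus h h1 (not_computable_of_above h h2)⟩⟩

end Pool.Agent.Results.MP_4b35b9_lc.DeltaThreeCone
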